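import Mathlib
import Pool.Agent.H166R2.VC.Chi

set_option autoImplicit false

namespace Pool.Agent.Results.MP_f053ce_co.Asymptotics

open Filter Topology

/-- `G` is critical `k`-chromatic: `χ(G) = k` and `χ(G - x) = k - 1` for every vertex `x`. -/
def IsCriticalChromatic (k : ℕ) {V : Type} (G : SimpleGraph V) : Prop :=
  G.chromaticNumber = ((k : ℕ) : ℕ∞) ∧
    ∀ x : V, (G.induce {y : V | y ≠ x}).chromaticNumber = ((k - 1 : ℕ) : ℕ∞)

/-- `f_k(n)`: the maximal number of edges of a critical `k`-chromatic graph of order `n`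
(and `0` if there is no such graph). -/
noncomputable def f (k n : ℕ) : ℕ :=
  sSup {m : ℕ | ∃ G : SimpleGraph (Fin n), IsCriticalChromatic k G ∧ G.edgeSet.ncard = m}

/-- For every `k ≥ 4`: critical `k`-chromatic graphs exist for all sufficiently large orders `n`,
`f_k(n)` is then the maximum of the number of edges over the critical `k`-chromatic graphs of
order `n`, and `f_k(n) / n² → (1 - 1 / (k - 2)) / 2`. -/
theorem result (k : ℕ) (hk : 4 ≤ k) :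
    (∃ n₀ : ℕ, ∀ n : ℕ, n₀ ≤ n → IsGreatest {m : ℕ | ∃ G : SimpleGraph (Fin n),
      IsCriticalChromatic k G ∧ G.edgeSet.ncard = m} (f k n)) ∧
    Tendsto (fun n : ℕ => (f k n : ℝ) / (n : ℝ) ^ 2) atTop
      (𝓝 ((1 - 1 / ((k : ℝ) - 2)) / 2)) := by
  obtain ⟨s, rfl⟩ : ∃ s, k = s + 2 := ⟨k - 2, by omega⟩
  have hs : 2 ≤ s := by omega
  have hiff : ∀ (n : ℕ) (_ : 0 < n) (G : SimpleGraph (Fin n)),
      IsCriticalChromatic (s + 2) G ↔ (H166R2.VC.NoCol (s + 1) G ∧ H166R2.VC.VCol (s + 1) G) := by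
    intro n hn G
    have : Nonempty (Fin n) := ⟨⟨0, hn⟩⟩
    exact H166R2.VC.crit_iff (s + 1) (by omega) G
  have hbdd : ∀ n, BddAbove {m : ℕ | ∃ G : SimpleGraph (Fin n),
      IsCriticalChromatic (s + 2) G ∧ G.edgeSet.ncard = m} := by
    intro n
    refine ⟨n ^ 2, ?_⟩
    rintro m ⟨G, _, rfl⟩
    have h := H166R2.VC.ncard_le_sq G
    rwa [Fintype.card_fin] at h
  have hgreat : ∀ n, (∃ G : SimpleGraph (Fin n), IsCriticalChromatic (s + 2) G) →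
      IsGreatest {m : ℕ | ∃ G : SimpleGraph (Fin n),
      IsCriticalChromatic (s + 2) G ∧ G.edgeSet.ncard = m} (f (s + 2) n) := by
    rintro n ⟨G, hG⟩
    have hne : {m : ℕ | ∃ G : SimpleGraph (Fin n),
      IsCriticalChromatic (s + 2) G ∧ G.edgeSet.ncard = m}.Nonempty := ⟨_, G, hG, rfl⟩
    exact ⟨Nat.sSup_mem hne (hbdd n), fun m hm => le_csSup (hbdd n) hm⟩
  have hlow : ∀ ε : ℝ, 0 < ε → ∃ n₀ : ℕ, ∀ n : ℕ, n₀ ≤ n →
      ∃ G : SimpleGraph (Fin n), IsCriticalChromatic (s + 2) G ∧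
        ((1 - 1 / (s : ℝ)) / 2 - ε) * (n : ℝ) ^ 2 ≤ (G.edgeSet.ncard : ℝ) := by
    intro ε hε
    obtain ⟨n₀, h⟩ := H166R2.VC.lower s hs ε hε
    refine ⟨n₀ + 1, fun n hn => ?_⟩
    obtain ⟨G, h1, h2, h3⟩ := h n (by omega)
    exact ⟨G, (hiff n (by omega) G).mpr ⟨h1, h2⟩, h3⟩
  refine ⟨?_, ?_⟩
  · obtain ⟨n₀, h⟩ := hlow 1 one_pos
    refine ⟨n₀, fun n hn => hgreat n ?_⟩
    obtain ⟨G, hG, _⟩ := h n hn
    exact ⟨G, hG⟩
  · have hlim : (1 - 1 / (((s + 2 : ℕ) : ℝ) - 2)) / 2 = (1 - 1 / (s : ℝ)) / 2 := by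
      push_cast
      congr 3
      ring
    rw [hlim, Metric.tendsto_atTop]
    intro ε hε
    obtain ⟨n₀, h⟩ := hlow (ε / 2) (by positivity)
    obtain ⟨C, hC⟩ := H166R2.VC.upper (s + 1) (by omega) (ε / 4) (by positivity)
    obtain ⟨n₁, hn₁⟩ := exists_nat_gt (4 * |C| / ε)
    refine ⟨max n₀ (n₁ + 1), fun n hn => ?_⟩
    have hn0 : n₀ ≤ n := le_trans (le_max_left _ _) hn
    have hn1 : n₁ + 1 ≤ n := le_trans (le_max_right _ _) hn
    have hnpos : (1 : ℝ) ≤ n := by exact_mod_cast (by omega : 1 ≤ n)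
    have hn2 : (0 : ℝ) < (n : ℝ) ^ 2 := by positivity
    obtain ⟨G, hG, hGe⟩ := h n hn0
    have hgr := hgreat n ⟨G, hG⟩
    have h1 : ((1 - 1 / (s : ℝ)) / 2 - ε / 2) * (n : ℝ) ^ 2 ≤ (f (s + 2) n : ℝ) := by
      refine hGe.trans ?_
      exact_mod_cast hgr.2 ⟨G, hG, rfl⟩
    obtain ⟨G', hG', hG'e⟩ := hgr.1
    have hcr := (hiff n (by omega) G').mp hG'
    have h2 := hC n (Fin n) G' (Fintype.card_fin n) hcr.1 hcr.2
    rw [hG'e] at h2
    have h3 : (((s + 1 : ℕ) : ℝ) - 1) = s := by push_cast; ring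
    rw [h3] at h2
    have h4 : |C| ≤ ε / 4 * (n : ℝ) ^ 2 := by
      rw [div_lt_iff₀ hε] at hn₁
      have h5 : (n₁ : ℝ) ≤ n := by exact_mod_cast (by omega : n₁ ≤ n)
      have h6 : (n : ℝ) ≤ (n : ℝ) ^ 2 := by nlinarith
      nlinarith
    have h5 := le_abs_self C
    rw [Real.dist_eq, abs_lt]
    constructor
    · have : (1 - 1 / (s : ℝ)) / 2 - ε / 2 ≤ (f (s + 2) n : ℝ) / (n : ℝ) ^ 2 := by
        rw [le_div_iff₀ hn2]
        exact h1
      linarith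
    · have : (f (s + 2) n : ℝ) / (n : ℝ) ^ 2 ≤ (1 - 1 / (s : ℝ)) / 2 + ε / 2 := by
        rw [div_le_iff₀ hn2]
        nlinarith
      linarith

end Pool.Agent.Results.MP_f053ce_co.Asymptotics
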